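import Pool.Agent.H869Z.AAn3

/-!
Counterexample to the linearity conjecture for zero loci of Bernstein-Sato ideals:
`X = ℂ³` with coordinates `x, y, z`, `W` the open unit polydisc and
`F = (z, y (x - y) (x + 2 y), x² + (z + 2 i) y²)`.
The point `(-4, (-9 + 2 i) / 5, -(4 + 3 i) / 5)` lies in `Z(B_F)` and `(-4, -3, 1)` does not,
while every rational affine subspace through the first point contains the second one.
-/

open MvPolynomial Pool.Agent.H869Z.ABS

namespace Pool.Agent.Results.MP_63dd0b_ag.FiveLines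

theorem result :
    ∃ (F : Fin 3 → (Fin 3 → ℂ) → ℂ) (W : Set (Fin 3 → ℂ)),
      F = ![fun x => x 2, fun x => x 1 * (x 0 - x 1) * (x 0 + 2 * x 1),
        fun x => x 0 ^ 2 + (x 2 + 2 * Complex.I) * x 1 ^ 2] ∧
      W = Metric.ball 0 1 ∧
      (∀ i, AnalyticOnNhd ℂ (F i) Set.univ) ∧ IsOpen W ∧ IsCompact (closure W) ∧
      ∃ C : Set (Fin 3 → ℂ), IsComponent (zeroLocus ℂ (bsIdeal F W)) C ∧ ¬ IsRatAffine C := by
  refine ⟨FF (2 * Complex.I), Metric.ball 0 1, ?_, rfl, fun i x _ => analyticAt_eval _ x,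
    Metric.isOpen_ball, Metric.isBounded_ball.isCompact_closure, main⟩
  funext i x
  fin_cases i
  · simp [FF, Fp]
  · simp [FF, Fp, Pool.Agent.H869Z.AMem.cc]
    ring
  · simp [FF, Fp, Pool.Agent.H869Z.AMem.qq]

end Pool.Agent.Results.MP_63dd0b_ag.FiveLines
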